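import Pool.Agent.helper62.RS.SpecE

/-!
# MP_07c750, row rs:ENM (numbers)
-/

open scoped MatrixGroups ContDiff Topology UpperHalfPlane ComplexConjugate
open UpperHalfPlane MeasureTheory Filter Set

namespace Pool.Agent.RS

theorem ENM_num (δ m b : ℝ) (hδ : 0 < δ) (hδ1 : δ ≤ 1 / 24) (hm : 0 ≤ m) (hm1 : m ≤ 1)
    (h : (1 - δ ^ 2) ^ 2 - 2 * δ * (m + δ ^ 2) - 2 * Real.exp (2 * δ) * δ ^ 2 ≤ Real.exp (δ * b)) :
    -(200 * δ) - 2 * m ≤ b := by
  by_contra hcon
  push Not at hcon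
  set v : ℝ := 200 * δ ^ 2 + 2 * m * δ with hv
  have hv0 : 0 ≤ v := by positivity
  have hexp : Real.exp (2 * δ) ≤ 2 := by
    have h1 := Real.add_one_le_exp (-(2 * δ))
    have h2 : Real.exp (2 * δ) * Real.exp (-(2 * δ)) = 1 := by
      rw [← Real.exp_add, add_neg_cancel, Real.exp_zero]
    have h3 : 0 < Real.exp (2 * δ) := Real.exp_pos _
    nlinarith
  have h1 : δ * b < -v := by
    rw [hv]
    nlinarith
  have h2 : Real.exp (δ * b) < Real.exp (-v) := Real.exp_lt_exp.2 h1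
  have h3 : Real.exp (-v) ≤ 1 - v + v ^ 2 := by
    have h4 := Real.add_one_le_exp v
    have h5 : Real.exp v * Real.exp (-v) = 1 := by
      rw [← Real.exp_add, add_neg_cancel, Real.exp_zero]
    have h6 : 0 < Real.exp (-v) := Real.exp_pos _
    have h7 : (v + 1) * Real.exp (-v) ≤ 1 := by
      have := mul_le_mul_of_nonneg_right h4 h6.le
      rwa [h5] at this
    have h8 : (v + 1) * (1 - v + v ^ 2) = 1 + v ^ 3 := by ring
    have h9 : 0 ≤ v ^ 3 := by positivity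
    have h10 : (v + 1) * Real.exp (-v) ≤ (v + 1) * (1 - v + v ^ 2) := by
      rw [h8]
      linarith
    exact le_of_mul_le_mul_left h10 (by linarith)
  have h4 : v ^ 2 ≤ 107 * δ ^ 2 := by
    have h5 : v = δ * (200 * δ + 2 * m) := by
      rw [hv]
      ring
    have h6 : 200 * δ + 2 * m ≤ 31 / 3 := by linarith
    have h7 : 0 ≤ 200 * δ + 2 * m := by positivity
    rw [h5, mul_pow]
    have h8 : (200 * δ + 2 * m) ^ 2 ≤ 107 := by nlinarith
    nlinarith [sq_nonneg δ]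
  have h5 : 2 * Real.exp (2 * δ) * δ ^ 2 ≤ 4 * δ ^ 2 := by
    have := sq_nonneg δ
    nlinarith
  have h6 : δ ^ 3 ≤ δ ^ 2 := by
    have : δ ^ 3 = δ * δ ^ 2 := by ring
    rw [this]
    nlinarith [sq_nonneg δ]
  have h7 : 0 < δ ^ 2 := by positivity
  have h8 : (1 - δ ^ 2) ^ 2 = 1 - 2 * δ ^ 2 + (δ ^ 2) ^ 2 := by ring
  have h9 : 2 * δ * (m + δ ^ 2) = 2 * m * δ + 2 * δ ^ 3 := by ring
  have h10 : 0 ≤ (δ ^ 2) ^ 2 := by positivity
  rw [h8, h9] at h
  have h11 : v = 200 * δ ^ 2 + 2 * m * δ := hv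
  linarith

theorem ENM : ENM_stmt := by
  intro δ m lam T β hδ hδ1 hm hm1 hlam hT hx h
  have hL : 0 < lam * T := mul_pos hlam hT
  have h1 := h (δ / (lam * T)) (by positivity) hx
  have e1 : 2 * (δ / (lam * T)) * lam * T = 2 * δ := by
    field_simp
  have e2 : 2 * (δ / (lam * T)) * (lam * T) = 2 * δ := by
    field_simp
  have e3 : 2 * (lam * T) ^ 2 * Real.exp (2 * δ) * (δ / (lam * T)) ^ 2 =
      2 * Real.exp (2 * δ) * δ ^ 2 := by
    field_simp
  have e4 : δ / (lam * T) * β = δ * (β / (lam * T)) := by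
    field_simp
  rw [e1, e2, e3, e4] at h1
  exact ENM_num δ m (β / (lam * T)) hδ hδ1 hm hm1 h1

end Pool.Agent.RS
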