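import Pool.Agent.helper62.RS.SpecE
import Pool.Agent.helper62.QU.All

/-!
# MP_07c750, row rs:ESM (smoothing)
-/

open scoped MatrixGroups ContDiff Topology UpperHalfPlane ComplexConjugate
open UpperHalfPlane MeasureTheory Filter Set

namespace Pool.Agent.RS

theorem ESM_bd (κ : ℝ → ℝ) (h : ℍ → ℝ) (c d : ℝ) (hκ : QU.RK κ) (hκ0 : ∀ t, 0 ≤ κ t)
    (hm : ∀ z : ℍ, ∫ w : ℍ, κ (QU.tt z w) = 1) (hh : Continuous h) (hb : ∀ z, 0 ≤ c * h z + d) (z : ℍ) :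
    0 ≤ c * QU.conv κ h z + d := by
  have h1 := (QU.A_CVB ℝ).2.1 κ h (fun _ => (1 : ℝ)) c d z hκ hh continuous_const
  have h2 : QU.conv κ (fun _ : ℍ => (1 : ℝ)) z = 1 := by
    unfold QU.conv
    simp only [smul_eq_mul, mul_one]
    exact hm z
  have h3 : 0 ≤ QU.conv κ (fun w => c • h w + d • (1 : ℝ)) z := by
    unfold QU.conv
    refine integral_nonneg fun w => ?_
    refine mul_nonneg (hκ0 _) ?_
    simp only [smul_eq_mul, mul_one]
    exact hb w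
  rw [h1, h2] at h3
  simpa using h3

theorem ESM : ESM_stmt := by
  intro Γ h a b ε hΓ hh hab hε
  obtain ⟨F, hF⟩ := QU.A_DOM Γ hΓ
  obtain ⟨-, huc, -, -⟩ := QU.A_BDD Γ F h hΓ hF hh
  obtain ⟨fam, hfam⟩ := QU.A_KFM
  obtain ⟨η, hη, hap⟩ := (QU.A_APX fam hfam).2 h huc ε hε
  refine ⟨QU.conv (fam η) h, (QU.A_CVB ℝ).2.2.2.2.2.2.2 Γ (fam η) h (hfam.rk η hη) hh,
    (QU.A_CVS ℝ (fam η) h (hfam.rk η hη) hh.1).1, hap η hη le_rfl, fun z => ⟨?_, ?_⟩⟩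
  · have := ESM_bd (fam η) h 1 (-a) (hfam.rk η hη) (hfam.nonneg η hη) (hfam.mass η hη) hh.1
      (fun z => by linarith [(hab z).1]) z
    linarith
  · have := ESM_bd (fam η) h (-1) b (hfam.rk η hη) (hfam.nonneg η hη) (hfam.mass η hη) hh.1
      (fun z => by linarith [(hab z).2]) z
    linarith

end Pool.Agent.RS
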